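import Pool.Agent.Q250.PrimeAP

/-!
MP_558b4e_nt, Q1: for every `n ≥ 1` there are (infinitely many) `m` coprime to `n` with
`m n ∣ C(m+n)`.
-/

set_option autoImplicit false

namespace Pool.Agent.Results.MP_558b4e_nt.CatalanMultiplier

/-- the `k`-th Catalan number `binom(2k,k)/(k+1)` -/
def C (k : ℕ) : ℕ := (2 * k).choose k / (k + 1)

/-- `S(n) = {m ≥ 1 : gcd(m,n) = 1, m n ∣ C(m+n)}` -/
def S (n : ℕ) : Set ℕ := {m | 0 < m ∧ Nat.gcd m n = 1 ∧ m * n ∣ C (m + n)}

theorem C_mul (k : ℕ) : C k * (k + 1) = (2 * k).choose k :=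
  Nat.div_mul_cancel (Nat.succ_dvd_centralBinom k)

/-- Kummer: each `i` with a carry out of the lowest `i` digits counts -/
theorem kummer {r k : ℕ} (hr : r.Prime) (s : Finset ℕ)
    (hs : ∀ i ∈ s, 1 ≤ i ∧ r ^ i ≤ 2 * (k % r ^ i)) :
    s.card ≤ padicValNat r ((2 * k).choose k) := by
  have : Fact r.Prime := ⟨hr⟩
  rw [padicValNat_choose (p := r) (b := Nat.log r (2 * k) + 1) (by omega) (Nat.lt_succ_self _)]
  apply Finset.card_le_card
  intro i hi
  obtain ⟨h1, h2⟩ := hs i hi
  rw [Finset.mem_filter, Finset.mem_Ico]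
  have e : 2 * k - k = k := by omega
  rw [e]
  refine ⟨⟨h1, ?_⟩, by omega⟩
  have h3 : r ^ i ≤ 2 * k := h2.trans (by have := Nat.mod_le k (r ^ i); omega)
  have h4 : k ≠ 0 := by
    rintro rfl
    have : 0 < r ^ i := pow_pos hr.pos i
    omega
  have := Nat.le_log_of_pow_le hr.one_lt h3
  omega

theorem C_ne {k : ℕ} : C k ≠ 0 := by
  intro h
  have h1 := C_mul k
  rw [h, zero_mul] at h1
  have := Nat.centralBinom_pos k
  unfold Nat.centralBinom at this
  omega

theorem val_C {r k : ℕ} (hr : r.Prime) :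
    padicValNat r (C k) + padicValNat r (k + 1) = padicValNat r ((2 * k).choose k) := by
  have : Fact r.Prime := ⟨hr⟩
  rw [← C_mul, padicValNat.mul C_ne (Nat.succ_ne_zero k)]

/-- the large primes -/
theorem dvd_p {p q n : ℕ} (hp : p.Prime) (hqp : q < p) (h2 : p ≤ 2 * q) (hn : n + 1 < p) :
    p ∣ C (p * q + n) := by
  have : Fact p.Prime := ⟨hp⟩
  have hq : 0 < q := by have := hp.pos; omega
  have hmod : (p * q + n) % p ^ 2 = p * q + n := by
    apply Nat.mod_eq_of_lt
    nlinarith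
  have h1 := kummer (k := p * q + n) hp {2} (by
    intro i hi
    rw [Finset.mem_singleton] at hi
    subst hi
    rw [hmod]
    refine ⟨by norm_num, ?_⟩
    nlinarith)
  rw [Finset.card_singleton] at h1
  have h3 : padicValNat p (p * q + n + 1) = 0 := by
    apply padicValNat.eq_zero_of_not_dvd
    intro h
    have h4 : p ∣ n + 1 := by
      have : p * q + n + 1 = p * q + (n + 1) := by ring
      rw [this] at h
      exact (Nat.dvd_add_right (dvd_mul_right p q)).1 h
    have := Nat.le_of_dvd (by omega) h4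
    omega
  have h4 := val_C (k := p * q + n) hp
  exact dvd_of_one_le_padicValNat (by omega)

theorem dvd_q {p q n : ℕ} (hq : q.Prime) (h1 : 3 * q ≤ 2 * p) (h2 : p < 2 * q) (hn : n + 1 < q) :
    q ∣ C (p * q + n) := by
  have : Fact q.Prime := ⟨hq⟩
  obtain ⟨d, hd⟩ : ∃ d, p = q + d := ⟨p - q, by omega⟩
  subst hd
  have hmod : ((q + d) * q + n) % q ^ 2 = d * q + n := by
    have : (q + d) * q + n = (d * q + n) + q ^ 2 * 1 := by ring
    rw [this, Nat.add_mul_mod_self_left]
    apply Nat.mod_eq_of_lt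
    have : d + 1 ≤ q := by omega
    nlinarith
  have h1 := kummer (k := (q + d) * q + n) hq {2} (by
    intro i hi
    rw [Finset.mem_singleton] at hi
    subst hi
    rw [hmod]
    refine ⟨by norm_num, ?_⟩
    nlinarith)
  rw [Finset.card_singleton] at h1
  have h3 : padicValNat q ((q + d) * q + n + 1) = 0 := by
    apply padicValNat.eq_zero_of_not_dvd
    intro h
    have h4 : q ∣ n + 1 := by
      have : (q + d) * q + n + 1 = (q + d) * q + (n + 1) := by ring
      rw [this] at h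
      exact (Nat.dvd_add_right (dvd_mul_left q (q + d))).1 h
    have := Nat.le_of_dvd (by omega) h4
    omega
  have h4 := val_C (k := (q + d) * q + n) hq
  exact dvd_of_one_le_padicValNat (by omega)

/-- the primes dividing `n`: if `k ≡ -(4n-1)` modulo `n ^ L`, `L` large -/
theorem dvd_n {n k L : ℕ} (hn : 0 < n) (hL : 16 * n + 2 ≤ L) (h : n ^ L ∣ k + (4 * n - 1)) :
    n ∣ C k := by
  rw [← Nat.factorization_prime_le_iff_dvd (by omega) C_ne]
  intro r hr
  have : Fact r.Prime := ⟨hr⟩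
  rw [Nat.factorization_def _ hr, Nat.factorization_def _ hr]
  by_cases hrn : r ∣ n
  swap
  · rw [padicValNat.eq_zero_of_not_dvd hrn]; exact Nat.zero_le _
  set a := padicValNat r n with ha
  have ha1 : 1 ≤ a := one_le_padicValNat_of_dvd (by omega) hrn
  have hra : r ^ a ∣ n := pow_padicValNat_dvd
  have haln : a < n := by
    calc a < r ^ a := Nat.lt_pow_self hr.one_lt
      _ ≤ n := Nat.le_of_dvd hn hra
  have hrL : r ^ L ∣ k + (4 * n - 1) := by
    refine dvd_trans ?_ h
    exact pow_dvd_pow_of_dvd hrn L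
  -- the carries
  have hcar : ∀ i, 8 * n ≤ i → i ≤ L → r ^ i ≤ 2 * (k % r ^ i) := by
    intro i hi1 hi2
    have h1 : r ^ i ∣ k + (4 * n - 1) := (pow_dvd_pow r hi2).trans hrL
    have h2 : i < r ^ i := Nat.lt_pow_self hr.one_lt
    have h3 : (k % r ^ i + (4 * n - 1)) % r ^ i = 0 := by
      rw [Nat.mod_add_mod]
      exact Nat.mod_eq_zero_of_dvd h1
    obtain ⟨c, hc⟩ := Nat.dvd_of_mod_eq_zero h3
    have h4 : k % r ^ i < r ^ i := Nat.mod_lt _ (by omega)
    generalize k % r ^ i = u at *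
    have hc0 : c ≠ 0 := by
      rintro rfl
      rw [mul_zero] at hc
      omega
    have h5 : r ^ i ≤ r ^ i * c := Nat.le_mul_of_pos_right _ (Nat.pos_of_ne_zero hc0)
    generalize r ^ i * c = w at *
    omega
  have h1 := kummer (k := k) hr (Finset.Icc (8 * n) L) (by
    intro i hi
    rw [Finset.mem_Icc] at hi
    exact ⟨by omega, hcar i hi.1 hi.2⟩)
  rw [Nat.card_Icc] at h1
  have h2 := val_C (k := k) hr
  -- valuation of `k+1`
  have h3 : padicValNat r (k + 1) ≤ 1 := by
    by_contra hcon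
    push Not at hcon
    have h4 : r ^ 2 ∣ k + 1 := (padicValNat_dvd_iff_le (Nat.succ_ne_zero k)).2 hcon
    have h5 : r ^ 2 ∣ k + (4 * n - 1) := (pow_dvd_pow r (by omega)).trans hrL
    have h6 : r ^ 2 ∣ 4 * n - 2 := by
      have : k + (4 * n - 1) = (k + 1) + (4 * n - 2) := by omega
      rw [this] at h5
      exact (Nat.dvd_add_right h4).1 h5
    have h7 : r ∣ 4 * n - 2 := (dvd_pow_self r (by norm_num)).trans h6
    have h8 : r ∣ 2 := by
      have h9 : r ∣ 4 * n := hrn.mul_left 4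
      have e : 4 * n = (4 * n - 2) + 2 := by omega
      rw [e] at h9
      exact (Nat.dvd_add_right h7).1 h9
    have h9 : r = 2 := (Nat.prime_dvd_prime_iff_eq hr Nat.prime_two).1 h8
    subst h9
    omega
  omega

/-- **Q1 answered in the positive** (with infinitely many multipliers). -/
theorem result : ∀ n : ℕ, 0 < n → ∀ N : ℕ, ∃ m ∈ S n, N < m := by
  intro n hn N
  set L := 16 * n + 2 with hL
  have hM : n ^ L ≠ 0 := by positivity
  have : NeZero (n ^ L) := ⟨hM⟩
  -- the residue class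
  have hunit : IsUnit ((1 - 5 * n : ℤ) : ZMod (n ^ L)) := by
    have h1 : IsCoprime (1 - 5 * n : ℤ) ((n ^ L : ℕ) : ℤ) := by
      push_cast
      apply IsCoprime.pow_right
      exact ⟨1, 5, by ring⟩
    obtain ⟨u, v, huv⟩ := h1
    apply IsUnit.of_mul_eq_one ((u : ℤ) : ZMod (n ^ L))
    have h2 : ((u * (1 - 5 * n) + v * ((n ^ L : ℕ) : ℤ) : ℤ) : ZMod (n ^ L)) = 1 := by
      rw [huv]; simp
    have h3 : (((n ^ L : ℕ) : ℤ) : ZMod (n ^ L)) = 0 := by
      rw [Int.cast_natCast]; exact ZMod.natCast_self _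
    rw [Int.cast_add, Int.cast_mul, Int.cast_mul, h3, mul_zero, add_zero] at h2
    rw [mul_comm]
    exact h2
  obtain ⟨X, hX⟩ := Filter.eventually_atTop.1
    (Q250.PrimeAP.window hunit (α := 3 / 2) (β := 7 / 4) (by norm_num) (by norm_num))
  obtain ⟨q, hq1, hq, hqm⟩ := Nat.forall_exists_prime_gt_and_modEq (⌈X⌉₊ + N + n + 2)
    (q := n ^ L) (a := 1) hM (Nat.coprime_one_left _)
  have hXq : X ≤ (q : ℝ) := by
    calc X ≤ (⌈X⌉₊ : ℝ) := Nat.le_ceil X
      _ ≤ q := by exact_mod_cast (by omega)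
  obtain ⟨p, hp, hpa, hp1, hp2⟩ := hX q hXq
  have hp1' : 3 * q < 2 * p := by
    have : (3 * q : ℝ) < 2 * p := by linarith
    exact_mod_cast this
  have hp2' : p < 2 * q := by
    have hq0 : (0 : ℝ) < q := by exact_mod_cast hq.pos
    have : (p : ℝ) < 2 * q := by linarith
    exact_mod_cast this
  have hqn : Nat.Coprime q n := by
    rw [Nat.Prime.coprime_iff_not_dvd hq]
    intro h
    have := Nat.le_of_dvd hn h
    omega
  have hpn : Nat.Coprime p n := by
    rw [Nat.Prime.coprime_iff_not_dvd hp]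
    intro h
    have := Nat.le_of_dvd hn h
    omega
  have hdvd : n ^ L ∣ (p * q + n) + (4 * n - 1) := by
    rw [← Int.natCast_dvd_natCast, ← ZMod.intCast_zmod_eq_zero_iff_dvd]
    have e : (((p * q + n) + (4 * n - 1) : ℕ) : ℤ) = p * q + n + (4 * n - 1) := by
      push_cast [Nat.cast_sub (show 1 ≤ 4 * n by omega)]
      ring
    rw [e]
    have hq1 : ((q : ℕ) : ZMod (n ^ L)) = 1 := by
      have := (ZMod.natCast_eq_natCast_iff q 1 (n ^ L)).2 hqm
      simpa using this
    push_cast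
    push_cast at hpa
    rw [hpa, hq1]
    ring
  have hpq : Nat.Coprime p q := (Nat.coprime_primes hp hq).2 (by omega)
  refine ⟨p * q, ⟨Nat.mul_pos hp.pos hq.pos, Nat.Coprime.mul_left hpn hqn, ?_⟩, ?_⟩
  · apply Nat.Coprime.mul_dvd_of_dvd_of_dvd (Nat.Coprime.mul_left hpn hqn)
    · exact Nat.Coprime.mul_dvd_of_dvd_of_dvd hpq (dvd_p hp (by omega) (by omega) (by omega))
        (dvd_q hq (by omega) hp2' (by omega))
    · exact dvd_n hn le_rfl hdvd
  · have : q ≤ p * q := Nat.le_mul_of_pos_left _ hp.pos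
    omega

end Pool.Agent.Results.MP_558b4e_nt.CatalanMultiplier
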